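import Pool.Agent.Y148.OD.Stm

/-!
# Project OD (helper148), job OD-3: generic specialisations of finite families (by helper141)
-/

set_option autoImplicit false

namespace Pool.Agent.Y141.OD

open MvPolynomial Pool.Agent.Y148.OD Cardinal

/-- extension of homomorphisms to algebraic extensions -/
theorem exists_ext {E S M : Type} [Field E] [Field S] [Field M] [Algebra E S]
    [Algebra.IsAlgebraic E S] [IsAlgClosed M] (g : E →+* M) :
    ∃ h : S →+* M, h.comp (algebraMap E S) = g := by
  let _ := g.toAlgebra
  exact ⟨(IsAlgClosed.lift : S →ₐ[E] M).toRingHom, AlgHom.comp_algebraMap _⟩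

/-- independent families over countable subfields -/
theorem exists_indep {Ω : Type} [Field Ω] [IsAlgClosed Ω] [Uncountable Ω] (L : Subfield Ω)
    (hL : Countable L) (I : Type) [Finite I] : ∃ b : I → Ω, AlgebraicIndependent L b := by
  obtain ⟨s, hs⟩ := exists_isTranscendenceBasis L Ω
  have h0 : ℵ₀ < #Ω := Cardinal.aleph0_lt_mk_iff.2 inferInstance
  have h1 := IsAlgClosed.cardinal_eq_cardinal_transcendence_basis_of_aleph0_lt'
    ((↑) : s → Ω) hs (Cardinal.mk_le_aleph0 (α := L)) h0
  have h2 : Infinite s := by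
    rw [Cardinal.infinite_iff, ← h1]
    exact h0.le
  obtain ⟨n, ⟨e⟩⟩ := Finite.exists_equiv_fin I
  let f : I ↪ s := e.toEmbedding.trans ((Fin.valEmbedding).trans (Infinite.natEmbedding s))
  exact ⟨_, hs.1.comp f f.injective⟩

/-- the rank of the range of a family, in terms of another family with more relations -/
theorem rk_le {Ω : Type} [Field Ω] {σ : Type} (K L : Subfield Ω) (hKL : K ≤ L) (y y' : σ → Ω)
    (h : ∀ P : MvPolynomial σ K, aeval y P = 0 → aeval y' P = 0) :
    rk L (Set.range y') ≤ rk K (Set.range y) := by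
  unfold rk
  rw [Matroid.eRk_le_iff]
  intro J hJ hJi
  have hJ1 : AlgebraicIndepOn L id J := hJi
  let _ : Algebra K L := (Subfield.inclusion hKL).toAlgebra
  have : IsScalarTower K L Ω := IsScalarTower.of_algebraMap_eq (fun x => rfl)
  have hJ2 : AlgebraicIndependent K (fun j : J => (j : Ω)) :=
    AlgebraicIndependent.restrictScalars (K := L) (algebraMap K L).injective hJ1
  choose s hs using fun j : J => hJ j.2
  have hJ3 : AlgebraicIndependent K (fun j : J => y (s j)) := by
    rw [algebraicIndependent_iff]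
    intro P hP
    have h1 : aeval y (rename s P) = 0 := by rw [aeval_rename]; exact hP
    have h2 := h _ h1
    rw [aeval_rename] at h2
    have h3 : (y' ∘ s) = fun j : J => (j : Ω) := funext hs
    rw [h3] at h2
    exact algebraicIndependent_iff.1 hJ2 P h2
  rw [Matroid.le_eRk_iff]
  refine ⟨Set.range fun j : J => y (s j), ?_, hJ3.to_subtype_range, ?_⟩
  · rintro _ ⟨j, rfl⟩
    exact ⟨_, rfl⟩
  · rw [← Set.image_univ, Function.Injective.encard_image hJ3.injective, Set.encard_univ]
    rfl

/-- Generic specialisations. -/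
theorem generic : StmGeneric := by
  intro Ω _ _ _ σ _ K L hKL hL y
  obtain ⟨I, hI⟩ := (AlgebraicIndependent.matroid K Ω).exists_isBasis (Set.range y)
  obtain ⟨hI1, hI2, hI3⟩ := AlgebraicIndependent.matroid_isBasis_iff.1 hI
  have hfin : Finite I := ((Set.finite_range y).subset hI2).to_subtype
  obtain ⟨b, hb⟩ := exists_indep L hL I
  let _ : Algebra K L := (Subfield.inclusion hKL).toAlgebra
  have : IsScalarTower K L Ω := IsScalarTower.of_algebraMap_eq (fun x => rfl)
  have hbK : AlgebraicIndependent K b :=
    AlgebraicIndependent.restrictScalars (K := L) (algebraMap K L).injective hb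
  have hI1' : AlgebraicIndependent K ((↑) : I → Ω) := hI1
  let E := IntermediateField.adjoin K (Set.range ((↑) : I → Ω))
  let g : E →ₐ[K] Ω := (IntermediateField.val _).comp
    ((hbK.aevalEquivField.toAlgHom).comp (hI1'.aevalEquivField.symm.toAlgHom))
  have hg : ∀ (i : I) (h : (i : Ω) ∈ E), g ⟨i, h⟩ = b i := by
    intro i h
    have h1 : hI1'.aevalEquivField (algebraMap (MvPolynomial I K)
        (FractionRing (MvPolynomial I K)) (X i)) = (⟨i, h⟩ : E) := by
      apply Subtype.ext
      rw [AlgebraicIndependent.aevalEquivField_algebraMap_apply_coe, aeval_X]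
    have h2 : hI1'.aevalEquivField.symm (⟨i, h⟩ : E) = algebraMap (MvPolynomial I K)
        (FractionRing (MvPolynomial I K)) (X i) := by
      rw [← h1, AlgEquiv.symm_apply_apply]
    show ((hbK.aevalEquivField (hI1'.aevalEquivField.symm (⟨i, h⟩ : E)) :
      IntermediateField.adjoin K (Set.range b)) : Ω) = b i
    rw [h2, AlgebraicIndependent.aevalEquivField_algebraMap_apply_coe, aeval_X]
  let S := algebraicClosure E Ω
  obtain ⟨h, hh⟩ := exists_ext (S := S) (g : E →+* Ω)
  have hyS : ∀ j, y j ∈ S := by
    intro j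
    rw [mem_algebraicClosure_iff]
    have h1 := hI3 (y j) ⟨j, rfl⟩
    rw [IntermediateField.isAlgebraic_adjoin_iff, Subtype.range_coe]
    exact h1
  have hhE : ∀ e : E, h (algebraMap E S e) = g e := fun e => RingHom.congr_fun hh e
  -- `h` as a homomorphism over `K`
  let h' : S →ₐ[K] Ω :=
    { toRingHom := h
      commutes' := fun c => by
        have h1 : algebraMap K S c = algebraMap E S (algebraMap K E c) := rfl
        show h (algebraMap K S c) = algebraMap K Ω c
        rw [h1, hhE, AlgHom.commutes] }
  let v' : S →ₐ[K] Ω :=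
    { toRingHom := algebraMap S Ω
      commutes' := fun c => rfl }
  let yS : σ → S := fun j => ⟨y j, hyS j⟩
  have hrel : ∀ P : MvPolynomial σ K, aeval y P = 0 ↔ aeval (fun j => h (yS j)) P = 0 := by
    intro P
    have h1 : aeval y P = ((aeval yS P : S) : Ω) := (MvPolynomial.comp_aeval_apply yS v' P).symm
    have h3 : aeval (fun j => h (yS j)) P = h' (aeval yS P) :=
      (MvPolynomial.comp_aeval_apply yS h' P).symm
    rw [h1, h3, map_eq_zero_iff h' (RingHom.injective h), ZeroMemClass.coe_eq_zero]
  refine ⟨fun j => h (yS j), hrel, le_antisymm (rk_le K L hKL _ _ fun P => (hrel P).1) ?_⟩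
  unfold rk
  rw [hI.eRk_eq_encard, Matroid.le_eRk_iff]
  refine ⟨Set.range b, ?_, hb.to_subtype_range, ?_⟩
  · rintro _ ⟨i, rfl⟩
    obtain ⟨j, hj⟩ := hI2 i.2
    refine ⟨j, ?_⟩
    have hiE : (i : Ω) ∈ E := IntermediateField.subset_adjoin _ _ ⟨i, rfl⟩
    rw [← hg i hiE, ← hhE]
    show h (yS j) = _
    congr 1
    exact Subtype.ext hj
  · rw [← Set.image_univ, Function.Injective.encard_image hb.injective, Set.encard_univ]
    rfl

end Pool.Agent.Y141.OD
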